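import Pool.Agent.N80.LS.Comb0
import Pool.Agent.N402.LS.SumA
import Pool.Agent.N966.LS.Dist
import Pool.Agent.N966.LS.Ay
import Pool.Agent.N954.LS.YY
import Pool.Agent.N232.LS.Quads
import Pool.Agent.N615.LS.Small
import Pool.Agent.N42.LS.AA

set_option autoImplicit false

/-! The combinatorial inequality (LS4). -/

namespace Pool.Agent.N80.LS

open Finset Pool.Agent.H384R3.SPk Pool.Agent.N356.SP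

variable {Γ : Type*} [AddCommGroup Γ]

/-- LS4 with LS2c (AA) as a hypothesis -/
theorem comb' {C : Finset Γ} {θ : Γ → Γ → ℝ} (h : GoodC C θ)
    (I : Multiset Γ → ℝ) (I0 : ∀ U, 0 ≤ I U) (Iz : ∀ U : Multiset Γ, U.sum ≠ 0 → I U = 0)
    (AA : ∑ T ∈ TA C, ∑ T' ∈ TA C, I (ms T + ms T') =
      9 * (∑ x ∈ C, ∑ y ∈ C, ∑ z ∈ C, I {x, -x, y, -y, z, -z}) -
      18 * (∑ x ∈ C, ∑ y ∈ C, I {x, -x, x, -x, y, -y}) +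
      9 * ∑ x ∈ C, I {x, -x, x, -x, x, -x}) :
    5 / 2 * (∑ x ∈ C, ∑ y ∈ C, ∑ z ∈ C, I {x, -x, y, -y, z, -z}) +
      8 / 3 * (∑ r ∈ C, ∑ s ∈ C, ∑ t ∈ C, ∑ u ∈ C, ∑ v ∈ C,
        θ s t * θ u v * I {r, -r, s, t, u, v}) ≤
    ∑ a ∈ C, ∑ b ∈ C, ∑ c ∈ C, ∑ d ∈ C, ∑ x ∈ C, ∑ y ∈ C, I {a, b, c, d, x, y} := by
  have hs := Pool.Agent.N402.LS.sumA h.neg h.ne
  exact comb_of h I I0 Iz hs
    (Pool.Agent.N966.LS.distinct_nonneg h.neg h.ne I I0)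
    (Pool.Agent.N954.LS.YY h.neg h.ne I I0) AA
    (Pool.Agent.N966.LS.AY hs I Iz)
    (fun K K0 Kn => Pool.Agent.N615.LS.Wpaired h K K0 Kn)
    (fun I I0 Iz => Pool.Agent.N232.LS.Wsplit h I I0 Iz)
    (Pool.Agent.N232.LS.Qbound h.neg h.ne I I0)

/-- LS4 -/
theorem comb {C : Finset Γ} {θ : Γ → Γ → ℝ} (h : GoodC C θ)
    (I : Multiset Γ → ℝ) (I0 : ∀ U, 0 ≤ I U) (Iz : ∀ U : Multiset Γ, U.sum ≠ 0 → I U = 0) :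
    5 / 2 * (∑ x ∈ C, ∑ y ∈ C, ∑ z ∈ C, I {x, -x, y, -y, z, -z}) +
      8 / 3 * (∑ r ∈ C, ∑ s ∈ C, ∑ t ∈ C, ∑ u ∈ C, ∑ v ∈ C,
        θ s t * θ u v * I {r, -r, s, t, u, v}) ≤
    ∑ a ∈ C, ∑ b ∈ C, ∑ c ∈ C, ∑ d ∈ C, ∑ x ∈ C, ∑ y ∈ C, I {a, b, c, d, x, y} :=
  comb' h I I0 Iz (Pool.Agent.N42.LS.AA h.neg h.ne I Iz
    (Pool.Agent.N402.LS.sumA h.neg h.ne))

end Pool.Agent.N80.LS
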