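import Pool.Agent.N356.SP.Defs

set_option autoImplicit false

/-! Assembly of the combinatorial inequality (LS4), with the pieces as hypotheses. -/

namespace Pool.Agent.N80.LS

open Finset Pool.Agent.H384R3.SPk Pool.Agent.N356.SP

variable {Γ : Type*} [AddCommGroup Γ]

/-- the sum over all triples -/
theorem sum_triple (C : Finset Γ) (F : Γ × Γ × Γ → ℝ) :
    ∑ T ∈ C ×ˢ C ×ˢ C, F T = ∑ a ∈ C, ∑ b ∈ C, ∑ c ∈ C, F (a, b, c) := by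
  rw [sum_product]
  refine sum_congr rfl fun a _ => ?_
  rw [sum_product]

theorem sum_split (C : Finset Γ) (F : Γ × Γ × Γ → ℝ) :
    ∑ T ∈ C ×ˢ C ×ˢ C, F T = ∑ T ∈ TA C, F T + ∑ T ∈ TY C, F T := by
  classical
  unfold TA TY
  rw [sum_filter_add_sum_filter_not]

theorem six (C : Finset Γ) (I : Multiset Γ → ℝ) :
    ∑ a ∈ C, ∑ b ∈ C, ∑ c ∈ C, ∑ d ∈ C, ∑ x ∈ C, ∑ y ∈ C, I {a, b, c, d, x, y} =
      ∑ T ∈ C ×ˢ C ×ˢ C, ∑ T' ∈ C ×ˢ C ×ˢ C, I (ms T + ms T') := by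
  rw [sum_triple]
  refine sum_congr rfl fun a _ => sum_congr rfl fun b _ => sum_congr rfl fun c _ => ?_
  rw [sum_triple]
  rfl

/-- the assembly -/
theorem comb_of {C : Finset Γ} {θ : Γ → Γ → ℝ} (h : GoodC C θ)
    (I : Multiset Γ → ℝ) (I0 : ∀ U, 0 ≤ I U) (Iz : ∀ U : Multiset Γ, U.sum ≠ 0 → I U = 0)
    (sumA : ∀ F : Multiset Γ → ℝ, ∑ T ∈ TA C, F (ms T) =
      3 * (∑ c ∈ C, ∑ x ∈ C, F {c, x, -x}) - 3 * ∑ c ∈ C, F {c, c, -c})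
    (distinct_nonneg : 0 ≤ (∑ x ∈ C, ∑ y ∈ C, ∑ z ∈ C, I {x, -x, y, -y, z, -z}) -
      6 * (∑ x ∈ C, ∑ y ∈ C, I {x, -x, x, -x, y, -y}) + 8 * ∑ x ∈ C, I {x, -x, x, -x, x, -x})
    (YY : 3 * (∑ T ∈ TY C, I {T.1, -T.1, T.2.1, -T.2.1, T.2.2, -T.2.2}) -
      2 * (∑ x ∈ C, I {x, -x, x, -x, x, -x}) ≤ ∑ T ∈ TY C, ∑ T' ∈ TY C, I (ms T + ms T'))
    (AA : ∑ T ∈ TA C, ∑ T' ∈ TA C, I (ms T + ms T') =
      9 * (∑ x ∈ C, ∑ y ∈ C, ∑ z ∈ C, I {x, -x, y, -y, z, -z}) -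
      18 * (∑ x ∈ C, ∑ y ∈ C, I {x, -x, x, -x, y, -y}) + 9 * ∑ x ∈ C, I {x, -x, x, -x, x, -x})
    (AY : ∑ T ∈ TA C, ∑ T' ∈ TY C, I (ms T + ms T') =
      3 * (∑ Q ∈ TQ C, ∑ x ∈ C, I ({x, -x} + (Q.1 ::ₘ ms Q.2))) -
      3 * ∑ Q ∈ TQ C, I ({Q.1, -Q.1} + (Q.1 ::ₘ ms Q.2)))
    (Wpaired : ∀ K : Γ → Γ → ℝ, (∀ s t, 0 ≤ K s t) → (∀ s t, K s (-t) = K s t) →
      2 * ∑ s ∈ C, ∑ t ∈ C, θ s t ^ 2 * K s t ≤
      45 / 16 * ((∑ s ∈ C, ∑ t ∈ C, K s t) - 2 * ∑ s ∈ C, K s s))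
    (Wsplit : ∀ I : Multiset Γ → ℝ, (∀ U, 0 ≤ I U) → (∀ U : Multiset Γ, U.sum ≠ 0 → I U = 0) →
      ∑ s ∈ C, ∑ t ∈ C, ∑ u ∈ C, ∑ v ∈ C, θ s t * θ u v * I {s, t, u, v} ≤
      2 * (∑ s ∈ C, ∑ t ∈ C, θ s t ^ 2 * I {s, -s, t, -t}) +
      ∑ Q ∈ TQ C, w2 Q * I (Q.1 ::ₘ ms Q.2))
    (Qbound : 8 / 3 * (∑ Q ∈ TQ C, w2 Q * ∑ x ∈ C, I ({x, -x} + (Q.1 ::ₘ ms Q.2))) ≤
      6 * (∑ Q ∈ TQ C, ∑ x ∈ C, I ({x, -x} + (Q.1 ::ₘ ms Q.2))) -
      6 * ∑ Q ∈ TQ C, I ({Q.1, -Q.1} + (Q.1 ::ₘ ms Q.2))) :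
    5 / 2 * (∑ x ∈ C, ∑ y ∈ C, ∑ z ∈ C, I {x, -x, y, -y, z, -z}) +
      8 / 3 * (∑ r ∈ C, ∑ s ∈ C, ∑ t ∈ C, ∑ u ∈ C, ∑ v ∈ C,
        θ s t * θ u v * I {r, -r, s, t, u, v}) ≤
    ∑ a ∈ C, ∑ b ∈ C, ∑ c ∈ C, ∑ d ∈ C, ∑ x ∈ C, ∑ y ∈ C, I {a, b, c, d, x, y} := by
  set p111 := ∑ x ∈ C, ∑ y ∈ C, ∑ z ∈ C, I {x, -x, y, -y, z, -z} with hp111
  set p21 := ∑ x ∈ C, ∑ y ∈ C, I {x, -x, x, -x, y, -y} with hp21
  set p3 := ∑ x ∈ C, I {x, -x, x, -x, x, -x} with hp3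
  set Z := ∑ Q ∈ TQ C, ∑ x ∈ C, I ({x, -x} + (Q.1 ::ₘ ms Q.2)) with hZ
  set Z' := ∑ Q ∈ TQ C, I ({Q.1, -Q.1} + (Q.1 ::ₘ ms Q.2)) with hZ'
  -- the sixfold sum
  have e1 : ∑ T ∈ C ×ˢ C ×ˢ C, ∑ T' ∈ C ×ˢ C ×ˢ C, I (ms T + ms T') =
      (∑ T ∈ TA C, ∑ T' ∈ TA C, I (ms T + ms T')) + 2 * (∑ T ∈ TA C, ∑ T' ∈ TY C,
        I (ms T + ms T')) + ∑ T ∈ TY C, ∑ T' ∈ TY C, I (ms T + ms T') := by
    have e2 : ∑ T ∈ TY C, ∑ T' ∈ TA C, I (ms T + ms T') =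
        ∑ T ∈ TA C, ∑ T' ∈ TY C, I (ms T + ms T') := by
      rw [sum_comm]
      refine sum_congr rfl fun T _ => sum_congr rfl fun T' _ => ?_
      rw [add_comm]
    rw [sum_split]
    simp_rw [sum_split C (fun T' => I (ms _ + ms T'))]
    rw [sum_add_distrib, sum_add_distrib, e2]
    ring
  -- the sum of `K` over the triples without antipodal pair
  have hK : ∑ T ∈ TY C, I {T.1, -T.1, T.2.1, -T.2.1, T.2.2, -T.2.2} = p111 - (3 * p21 - 3 * p3) := by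
    have e3 : ∑ T ∈ TA C, I {T.1, -T.1, T.2.1, -T.2.1, T.2.2, -T.2.2} = 3 * p21 - 3 * p3 := by
      have e4 := sumA (fun U => I (U + U.map (fun x => -x)))
      have e5 : ∀ T : Γ × Γ × Γ, ms T + (ms T).map (fun x => -x) =
          {T.1, -T.1, T.2.1, -T.2.1, T.2.2, -T.2.2} := by
        intro T
        simp only [ms, Multiset.insert_eq_cons, Multiset.map_cons, Multiset.map_singleton]
        rw [← Multiset.singleton_add T.1, ← Multiset.singleton_add T.2.1,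
          ← Multiset.singleton_add (-T.1), ← Multiset.singleton_add (-T.2.1),
          ← Multiset.singleton_add T.1, ← Multiset.singleton_add (-T.1),
          ← Multiset.singleton_add T.2.1, ← Multiset.singleton_add (-T.2.1),
          ← Multiset.singleton_add T.2.2]
        abel
      simp_rw [e5] at e4
      rw [e4]
      congr 2
      · rw [hp21, sum_comm]
        refine sum_congr rfl fun x _ => sum_congr rfl fun c _ => ?_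
        congr 1
        have := e5 (c, x, -x)
        simp only [ms] at this
        rw [this]
        simp only [neg_neg, Multiset.insert_eq_cons]
        rw [← Multiset.singleton_add c, ← Multiset.singleton_add (-c)]
        simp only [← Multiset.singleton_add]
        abel
      · rw [hp3]
        refine sum_congr rfl fun x _ => ?_
        congr 1
        have := e5 (x, x, -x)
        simp only [ms] at this
        rw [this]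
        simp only [neg_neg, Multiset.insert_eq_cons, ← Multiset.singleton_add]
        abel
    have e6 := sum_split C (fun T => I {T.1, -T.1, T.2.1, -T.2.1, T.2.2, -T.2.2})
    rw [sum_triple, e3] at e6
    change p111 = _ at e6
    linarith
  -- the weighted sum
  have hW : ∑ r ∈ C, ∑ s ∈ C, ∑ t ∈ C, ∑ u ∈ C, ∑ v ∈ C,
        θ s t * θ u v * I {r, -r, s, t, u, v} ≤
      45 / 16 * (p111 - 2 * p21) +
        ∑ Q ∈ TQ C, w2 Q * ∑ x ∈ C, I ({x, -x} + (Q.1 ::ₘ ms Q.2)) := by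
    have f1 : ∀ r ∈ C, ∑ s ∈ C, ∑ t ∈ C, ∑ u ∈ C, ∑ v ∈ C,
        θ s t * θ u v * I {r, -r, s, t, u, v} ≤
        2 * (∑ s ∈ C, ∑ t ∈ C, θ s t ^ 2 * I ({r, -r} + {s, -s, t, -t})) +
        ∑ Q ∈ TQ C, w2 Q * I ({r, -r} + (Q.1 ::ₘ ms Q.2)) := by
      intro r _
      refine le_trans (le_of_eq ?_) (Wsplit (fun U => I ({r, -r} + U)) (fun U => I0 _) ?_)
      · rfl
      · intro U hU
        apply Iz
        simpa using hU
    refine (sum_le_sum f1).trans ?_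
    rw [sum_add_distrib, ← mul_sum]
    have f2 : ∑ r ∈ C, ∑ s ∈ C, ∑ t ∈ C, θ s t ^ 2 * I ({r, -r} + {s, -s, t, -t}) =
        ∑ s ∈ C, ∑ t ∈ C, θ s t ^ 2 * ∑ r ∈ C, I ({r, -r} + {s, -s, t, -t}) := by
      rw [sum_comm]
      refine sum_congr rfl fun s _ => ?_
      rw [sum_comm]
      refine sum_congr rfl fun t _ => ?_
      rw [mul_sum]
    have f3 : ∑ r ∈ C, ∑ Q ∈ TQ C, w2 Q * I ({r, -r} + (Q.1 ::ₘ ms Q.2)) =
        ∑ Q ∈ TQ C, w2 Q * ∑ x ∈ C, I ({x, -x} + (Q.1 ::ₘ ms Q.2)) := by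
      rw [sum_comm]
      refine sum_congr rfl fun Q _ => ?_
      rw [mul_sum]
    rw [f2, f3]
    have f4 := Wpaired (fun s t => ∑ r ∈ C, I ({r, -r} + {s, -s, t, -t}))
      (fun s t => sum_nonneg fun r _ => I0 _) (by
        intro s t
        refine sum_congr rfl fun r _ => ?_
        congr 1
        simp only [neg_neg, Multiset.insert_eq_cons, ← Multiset.singleton_add]
        abel)
    have f5 : ∑ s ∈ C, ∑ t ∈ C, ∑ r ∈ C, I ({r, -r} + {s, -s, t, -t}) = p111 := by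
      rw [hp111]
      have g1 : ∀ s ∈ C, ∑ t ∈ C, ∑ r ∈ C, I ({r, -r} + {s, -s, t, -t}) =
          ∑ r ∈ C, ∑ t ∈ C, I ({r, -r} + {s, -s, t, -t}) := fun s _ => sum_comm
      rw [sum_congr rfl g1, sum_comm]
      rfl
    have f6 : ∑ s ∈ C, ∑ r ∈ C, I ({r, -r} + {s, -s, s, -s}) = p21 := by
      rw [hp21]
      refine sum_congr rfl fun s _ => sum_congr rfl fun r _ => ?_
      congr 1
      simp only [Multiset.insert_eq_cons, ← Multiset.singleton_add]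
      abel
    rw [f5, f6] at f4
    linarith
  rw [six, e1, AA, AY]
  rw [hK] at YY
  linarith

end Pool.Agent.N80.LS
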